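import Pool.Agent.H143.RicT

/-!
# The erasure-type Rényi information-combining bound at every integer order, for a pair of states
which are transposes of each other

If `σ'ₓ` is the transpose of `σₓ` (in particular for two copies of the same real state), then at
every integer order `n ≥ 2` the combined entropy is at most the erasure-type expression.
-/

namespace Pool.Agent.Results.MP_859019_mp.AllIntegerOrders

open H143.Ric Matrix

/-- The erasure-type expression `F_α` of the problem, as a function of `H₁` and `H₂`. -/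
noncomputable def Fer (α H₁ H₂ : ℝ) : ℝ :=
  1 / (1 - α) * Real.log (((2 : ℝ) ^ (1 - α) - Real.exp ((1 - α) * H₁)) *
    ((2 : ℝ) ^ (1 - α) - Real.exp ((1 - α) * H₂)) / (1 - (2 : ℝ) ^ (1 - α)) + (2 : ℝ) ^ (1 - α))

lemma exp_aux {α k : ℝ} (hα : α ≠ 1) (hk : 0 < k) :
    Real.exp ((1 - α) * (1 / (1 - α) * Real.log k)) = k := by
  have : 1 - α ≠ 0 := sub_ne_zero.2 (Ne.symm hα)
  rw [show (1 - α) * (1 / (1 - α) * Real.log k) = Real.log k by field_simp, Real.exp_log hk]

lemma main {b : Type} [Fintype b] [DecidableEq b] (n : ℕ) (hn : 2 ≤ n)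
    (σ : Fin 2 → Matrix b b ℂ) (hσ : ∀ k, IsDensity (σ k)) :
    condH n (cq fun k => (σ k)ᵀ) = condH n (cq σ) ∧
    condH n (tau σ fun k => (σ k)ᵀ) ≤ Fer n (condH n (cq σ)) (condH n (cq fun k => (σ k)ᵀ)) := by
  obtain ⟨A, B, hA, hB, h, q1, q2, q3⟩ := reduceT n hn σ hσ
  obtain ⟨k, hk, hle⟩ := core_n n hn hA hB h
  obtain ⟨r, hr, hr'⟩ := tr_psd_real hA n
  obtain ⟨s, hs, hs'⟩ := tr_psd_real hB n
  have hkrs : k = r + s := by rw [← hk, hr', hs']; simp
  have hkpos : 0 < k := by
    rcases (add_nonneg hr hs).eq_or_lt with h0 | h0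
    · exfalso
      have hr0 : r = 0 := by linarith
      have hs0 : s = 0 := by linarith
      have hA0 : A = 0 := zero_of_trace hA n (by omega) (by rw [hr', hr0]; simp)
      have hB0 : B = 0 := zero_of_trace hB n (by omega) (by rw [hs', hs0]; simp)
      rw [hA0, hB0, add_zero, zero_pow (by omega), trace_zero] at h
      exact zero_ne_one h
    · rw [hkrs]; exact h0
  rw [hk] at q1 q2
  rw [← q3] at hle
  have hn1 : (2 : ℝ) ≤ n := by exact_mod_cast hn
  constructor
  · unfold condH; rw [q1, q2]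
  · unfold Fer condH
    rw [q1, q2, exp_aux (by linarith) hkpos]
    have hδ : (2 : ℝ) ^ (1 - (n : ℝ)) = 1 / 2 ^ (n - 1) := by
      rw [show (1 : ℝ) - n = -((n - 1 : ℕ) : ℝ) by rw [Nat.cast_sub (by omega)]; push_cast; ring,
        Real.rpow_neg (by norm_num), Real.rpow_natCast]
      simp
    rw [hδ]
    have h2 : (2 : ℝ) ≤ 2 ^ (n - 1) := by
      calc (2 : ℝ) = 2 ^ 1 := by norm_num
        _ ≤ 2 ^ (n - 1) := pow_le_pow_right₀ (by norm_num) (by omega)
    set N : ℝ := 2 ^ (n - 1) with hN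
    have hN1 : 0 < N - 1 := by linarith
    have h0 : (1 / N - k) * (1 / N - k) / (1 - 1 / N) + 1 / N =
        k * k + (1 - k) * (1 - k) / (N - 1) := by
      have : N ≠ 0 := by linarith
      have h1 : 1 - 1 / N = (N - 1) / N := by field_simp
      rw [h1]
      field_simp
      ring
    rw [h0]
    have hpos : 0 < k * k + (1 - k) * (1 - k) / (N - 1) := by
      have := div_nonneg (mul_self_nonneg (1 - k)) hN1.le
      have h3 := mul_pos hkpos hkpos
      linarith
    have hl := Real.log_le_log hpos hle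
    have hneg : 1 / (1 - (n : ℝ)) ≤ 0 := by
      apply div_nonpos_of_nonneg_of_nonpos <;> linarith
    exact mul_le_mul_of_nonpos_left hl hneg

theorem result {b : Type} [Fintype b] [DecidableEq b] (n : ℕ) (hn : 2 ≤ n)
    (σ : Fin 2 → Matrix b b ℂ) (hσ : ∀ k, IsDensity (σ k)) :
    condH n (tau σ fun k => (σ k)ᵀ) ≤
      Fer n (condH n (cq σ)) (condH n (cq fun k => (σ k)ᵀ)) ∧
    condH n (cq fun k => (σ k)ᵀ) = condH n (cq σ) ∧
    ((∀ k, (σ k)ᵀ = σ k) →
      condH n (tau σ σ) ≤ Fer n (condH n (cq σ)) (condH n (cq σ))) := by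
  have h := main n hn σ hσ
  refine ⟨h.2, h.1, fun hs => ?_⟩
  have : (fun k => (σ k)ᵀ) = σ := funext hs
  have h2 := h.2
  rwa [this] at h2

end Pool.Agent.Results.MP_859019_mp.AllIntegerOrders
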