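import Pool.Agent.H143.RicC

/-!
# The erasure-type Rényi information-combining bound at the orders 3, 4 and 5

For all classical-quantum states `1/2 ∑ₓ σₓ ⊗ |x⟩⟨x|` with finite-dimensional quantum side
information, the combined entropy at order `3` equals the erasure-type expression, and at the orders
`4` and `5` it is at most that expression.
-/

namespace Pool.Agent.Results.MP_859019_mp.OrdersThreeFourFive

open H143.Ric

/-- The erasure-type expression `F_α` of the problem, as a function of `H₁` and `H₂`. -/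
noncomputable def Fer (α H₁ H₂ : ℝ) : ℝ :=
  1 / (1 - α) * Real.log (((2 : ℝ) ^ (1 - α) - Real.exp ((1 - α) * H₁)) *
    ((2 : ℝ) ^ (1 - α) - Real.exp ((1 - α) * H₂)) / (1 - (2 : ℝ) ^ (1 - α)) + (2 : ℝ) ^ (1 - α))

lemma exp_aux {α k : ℝ} (hα : α ≠ 1) (hk : 0 < k) :
    Real.exp ((1 - α) * (1 / (1 - α) * Real.log k)) = k := by
  have : 1 - α ≠ 0 := sub_ne_zero.2 (Ne.symm hα)
  rw [show (1 - α) * (1 / (1 - α) * Real.log k) = Real.log k by field_simp, Real.exp_log hk]

lemma pow3 : (2 : ℝ) ^ (1 - (3 : ℝ)) = 1 / 4 := by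
  rw [show (1 - (3 : ℝ)) = ((-2 : ℤ) : ℝ) by norm_num, Real.rpow_intCast]; norm_num

lemma pow4 : (2 : ℝ) ^ (1 - (4 : ℝ)) = 1 / 8 := by
  rw [show (1 - (4 : ℝ)) = ((-3 : ℤ) : ℝ) by norm_num, Real.rpow_intCast]; norm_num

lemma pow5 : (2 : ℝ) ^ (1 - (5 : ℝ)) = 1 / 16 := by
  rw [show (1 - (5 : ℝ)) = ((-4 : ℤ) : ℝ) by norm_num, Real.rpow_intCast]; norm_num

theorem result {b c : Type} [Fintype b] [DecidableEq b] [Fintype c] [DecidableEq c]
    (σ : Fin 2 → Matrix b b ℂ) (σ' : Fin 2 → Matrix c c ℂ)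
    (hσ : ∀ k, IsDensity (σ k)) (hσ' : ∀ k, IsDensity (σ' k)) :
    condH 3 (tau σ σ') = Fer 3 (condH 3 (cq σ)) (condH 3 (cq σ')) ∧
    condH 4 (tau σ σ') ≤ Fer 4 (condH 4 (cq σ)) (condH 4 (cq σ')) ∧
    condH 5 (tau σ σ') ≤ Fer 5 (condH 5 (cq σ)) (condH 5 (cq σ')) := by
  refine ⟨?_, ?_, ?_⟩
  · obtain ⟨A, B, A', B', hA, hB, hA', hB', h, h', q1, q2, q3⟩ := reduce 3 (by norm_num) σ σ' hσ hσ'
    obtain ⟨k, k', e1, e2, e3, i1, i2, i3, i4⟩ := core3 hA hB hA' hB' h h'
    rw [e1] at q1; rw [e2] at q2; rw [e3] at q3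
    simp only [Nat.cast_ofNat] at q1 q2 q3
    unfold Fer condH
    rw [q1, q2, q3, exp_aux (by norm_num) (by linarith), exp_aux (by norm_num) (by linarith), pow3]
    congr 2
    ring
  · obtain ⟨A, B, A', B', hA, hB, hA', hB', h, h', q1, q2, q3⟩ := reduce 4 (by norm_num) σ σ' hσ hσ'
    obtain ⟨k, k', e1, e2, e3, i1, i2, i3, i4⟩ := core4 hA hB hA' hB' h h'
    rw [e1] at q1; rw [e2] at q2; rw [← q3] at e3
    simp only [Nat.cast_ofNat] at q1 q2 e3
    unfold Fer condH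
    rw [q1, q2, exp_aux (by norm_num) (by linarith), exp_aux (by norm_num) (by linarith), pow4]
    have h0 : (1 / 8 - k) * (1 / 8 - k') / (1 - 1 / 8) + 1 / 8 = k * k' + (1 - k) * (1 - k') / 7 := by
      ring
    rw [h0]
    have hpos : 0 < k * k' + (1 - k) * (1 - k') / 7 := by
      have := mul_nonneg (sub_nonneg.2 i2) (sub_nonneg.2 i4)
      have h2 : 0 < k * k' := mul_pos (by linarith) (by linarith)
      linarith
    have hl := Real.log_le_log hpos e3
    norm_num
    linarith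
  · obtain ⟨A, B, A', B', hA, hB, hA', hB', h, h', q1, q2, q3⟩ := reduce 5 (by norm_num) σ σ' hσ hσ'
    obtain ⟨k, k', e1, e2, e3, i1, i2, i3, i4⟩ := core5 hA hB hA' hB' h h'
    rw [e1] at q1; rw [e2] at q2; rw [← q3] at e3
    simp only [Nat.cast_ofNat] at q1 q2 e3
    unfold Fer condH
    rw [q1, q2, exp_aux (by norm_num) (by linarith), exp_aux (by norm_num) (by linarith), pow5]
    have h0 : (1 / 16 - k) * (1 / 16 - k') / (1 - 1 / 16) + 1 / 16 =
        k * k' + (1 - k) * (1 - k') / 15 := by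
      ring
    rw [h0]
    have hpos : 0 < k * k' + (1 - k) * (1 - k') / 15 := by
      have := mul_nonneg (sub_nonneg.2 i2) (sub_nonneg.2 i4)
      have h2 : 0 < k * k' := mul_pos (by linarith) (by linarith)
      linarith
    have hl := Real.log_le_log hpos e3
    norm_num
    linarith

end Pool.Agent.Results.MP_859019_mp.OrdersThreeFourFive
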